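import Pool.Agent.H958.RL.Stm

/-!
# Reflection symmetry
-/

set_option autoImplicit false

namespace Pool.Agent.H331.RL.Refl

open Finset Pool.Agent.W830.RD Pool.Agent.H958.RL
open scoped Classical

theorem rv_rv {n : ℕ} (E : Finset (Fin n × Fin n)) : rv (rv E) = E := by
  unfold rv
  rw [Finset.image_image]
  have e : (fun e : Fin n × Fin n => (Fin.rev e.2, Fin.rev e.1)) ∘
      (fun e : Fin n × Fin n => (Fin.rev e.2, Fin.rev e.1)) = id := by
    funext x
    change (Fin.rev (Fin.rev x.1), Fin.rev (Fin.rev x.2)) = x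
    rw [Fin.rev_rev, Fin.rev_rev]
  rw [e, Finset.image_id]

theorem rv_card {n : ℕ} (E : Finset (Fin n × Fin n)) : (rv E).card = E.card := by
  unfold rv
  refine Finset.card_image_of_injective _ fun x y h => ?_
  have h1 : Fin.rev x.2 = Fin.rev y.2 := congrArg Prod.fst h
  have h2 : Fin.rev x.1 = Fin.rev y.1 := congrArg Prod.snd h
  exact Prod.ext (Fin.rev_injective h2) (Fin.rev_injective h1)

theorem rv_sub {n : ℕ} {E : Finset (Fin n × Fin n)} (h : E ⊆ Om n) : rv E ⊆ Om n := by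
  intro x hx
  obtain ⟨e, he, rfl⟩ := Finset.mem_image.1 hx
  have h1 : e.1 < e.2 := (Finset.mem_filter.1 (h he)).2
  refine Finset.mem_filter.2 ⟨Finset.mem_univ _, ?_⟩
  exact Fin.rev_lt_rev.2 h1

theorem main : S_REFL := by
  intro p n Q
  unfold Pr
  refine Finset.sum_nbij' rv rv ?_ ?_ ?_ ?_ ?_
  · intro E hE
    rw [Finset.mem_filter, Finset.mem_powerset] at hE ⊢
    exact ⟨rv_sub hE.1, hE.2⟩
  · intro E hE
    rw [Finset.mem_filter, Finset.mem_powerset] at hE ⊢
    refine ⟨rv_sub hE.1, ?_⟩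
    rw [rv_rv]
    exact hE.2
  · intro E _
    exact rv_rv E
  · intro E _
    exact rv_rv E
  · intro E _
    rw [rv_card]

end Pool.Agent.H331.RL.Refl
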